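import Pool.Agent.V11304.OM.Ana

/-!
# MP_28b5ac_nt, Q1: many prime factors of `n j ± a ^ h k` simultaneously (full affirmative answer)

For all real `K ≥ 2` and `0 < ε < 1` and all large `x` the interval `[x, (1 + 1/K) x]` contains at
least `x ^ (1 - ε)` integers `n` for which all the numbers `n j ± a ^ h k`
(`2 ≤ a ≤ K`, `1 ≤ j, k ≤ K`, `0 ≤ h ≤ K log x`) have at least `(log log x) ^ (1 - ε)` distinct
prime divisors.

Method: for every linear form and every one of `⌈(log log x) ^ (1 - ε)⌉` slots, the exponents `h`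
are covered by residue classes modulo the orders `d` of primitive prime divisors of `a ^ d - 1`
(greedily, with disjoint blocks of odd `d` for the slots, the last block ending at
`(log x) ^ (1/4)`), and each of the `o(log x / log log x)` exponents that remain gets its own
prime `≤ c log x`.
-/

set_option autoImplicit false

namespace Pool.Agent.Results.MP_28b5ac_nt.Full

open Filter

/-- the number of distinct primes dividing `|m|`, with value `0` at `m = 0` -/
def omega (m : ℤ) : ℕ := m.natAbs.primeFactors.card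

/-- `n` is `(K, ε, x)`-good -/
def Good (K ε x : ℝ) (n : ℤ) : Prop :=
  ∀ (a j k : ℤ) (h : ℕ), 2 ≤ a → (a : ℝ) ≤ K → 1 ≤ j → (j : ℝ) ≤ K → 1 ≤ k → (k : ℝ) ≤ K →
    (h : ℝ) ≤ K * Real.log x →
    Real.log (Real.log x) ^ (1 - ε) ≤ (omega (n * j + a ^ h * k) : ℝ) ∧
    Real.log (Real.log x) ^ (1 - ε) ≤ (omega (n * j - a ^ h * k) : ℝ)

/-- the good integers in `[x, (1 + 1/K) x]` -/
def goodSet (K ε x : ℝ) : Set ℤ :=
  {n : ℤ | x ≤ (n : ℝ) ∧ (n : ℝ) ≤ (1 + K⁻¹) * x ∧ Good K ε x n}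

open Pool.Agent.V11304.OM in
theorem result (K : ℝ) (hK : 2 ≤ K) (ε : ℝ) (h0 : 0 < ε) (h1 : ε < 1) :
    ∃ x₀ : ℝ, ∀ x : ℝ, x₀ ≤ x →
      (goodSet K ε x).Finite ∧ x ^ (1 - ε) ≤ ((goodSet K ε x).ncard : ℝ) := by
  set N := ⌈K⌉₊ with hN
  have hKN : K ≤ N := Nat.le_ceil K
  have hN2 : 2 ≤ N := by
    have : (2 : ℝ) ≤ N := hK.trans hKN
    exact_mod_cast this
  have hlog2 : Tendsto (fun x : ℝ => Real.log (Real.log x)) atTop atTop :=
    Real.tendsto_log_atTop.comp Real.tendsto_log_atTop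
  have hev : ∀ᶠ x : ℝ in atTop,
      (goodSet K ε x).Finite ∧ x ^ (1 - ε) ≤ ((goodSet K ε x).ncard : ℝ) := by
    filter_upwards [hlog2.eventually (ev_params N hN2 ε h0 h1),
      hlog2.eventually (ev_mod N hN2 ε h0 h1),
      Real.tendsto_log_atTop.eventually (ev_count N hN2 ε h0 h1),
      Real.tendsto_log_atTop.eventually_gt_atTop 0,
      hlog2.eventually_ge_atTop 1, eventually_gt_atTop 0] with x hp hm hc hL hl hx
    rw [Real.exp_log hL] at hp hm
    rw [Real.exp_log hx] at hc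
    set L := Real.log x with hLd
    set l := Real.log L with hld
    obtain ⟨w, hw, hY⟩ := hp
    have hA : 1 ≤ ⌈l ^ 6⌉₊ := by
      apply Nat.one_le_ceil_iff.2
      positivity
    obtain ⟨M, hM0, hM, hcnt⟩ := discrete N ⌈l ^ 6⌉₊ (N + 3) ⌊N * L⌋₊ ⌊ε / 8 * L⌋₊ w
      ⌈l ^ (1 - ε)⌉₊ (by omega) (by omega) hN2 hA hw hY
    have h2 := hc M hM0 (hm M hM)
    have h3 := hcnt x hx
    have hfin : (goodSet K ε x).Finite := by
      apply (Set.finite_Icc ⌈x⌉ ⌊(1 + K⁻¹) * x⌋).subset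
      intro n hn
      exact ⟨Int.ceil_le.2 hn.1, Int.le_floor.2 hn.2.1⟩
    refine ⟨hfin, ?_⟩
    have hsub : {n : ℤ | x ≤ (n : ℝ) ∧ (n : ℝ) ≤ (1 + (N : ℝ)⁻¹) * x ∧
        GoodN N ⌈l ^ (1 - ε)⌉₊ ⌊N * L⌋₊ n} ⊆ goodSet K ε x := by
      rintro n ⟨hn1, hn2, hn3⟩
      refine ⟨hn1, hn2.trans ?_, ?_⟩
      · apply mul_le_mul_of_nonneg_right _ hx.le
        have := inv_anti₀ (by linarith) hKN
        linarith
      · intro a j k h ha haK hj hjK hk hkK hh
        lift a to ℕ using (by omega)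
        lift j to ℕ using (by omega)
        lift k to ℕ using (by omega)
        have e1 : a ≤ N := by
          have : (a : ℝ) ≤ N := le_trans (by exact_mod_cast haK) hKN
          exact_mod_cast this
        have e2 : j ≤ N := by
          have : (j : ℝ) ≤ N := le_trans (by exact_mod_cast hjK) hKN
          exact_mod_cast this
        have e3 : k ≤ N := by
          have : (k : ℝ) ≤ N := le_trans (by exact_mod_cast hkK) hKN
          exact_mod_cast this
        have e4 : h ≤ ⌊N * L⌋₊ := by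
          apply Nat.le_floor
          exact hh.trans (mul_le_mul_of_nonneg_right hKN hL.le)
        have h4 := hn3 a j k h (by omega) e1 (by omega) e2 (by omega) e3 e4
        have h5 := Nat.le_ceil (l ^ (1 - ε))
        exact ⟨h5.trans (by exact_mod_cast h4.1), h5.trans (by exact_mod_cast h4.2)⟩
    have hcard : (({n : ℤ | x ≤ (n : ℝ) ∧ (n : ℝ) ≤ (1 + (N : ℝ)⁻¹) * x ∧
        GoodN N ⌈l ^ (1 - ε)⌉₊ ⌊N * L⌋₊ n}.ncard : ℕ) : ℝ) ≤ ((goodSet K ε x).ncard : ℝ) := by
      exact_mod_cast Set.ncard_le_ncard hsub hfin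
    have h6 : x ^ (1 - ε) = Real.exp ((1 - ε) * L) := by
      rw [Real.rpow_def_of_pos hx, mul_comm]
    rw [h6]
    linarith
  exact eventually_atTop.1 hev

end Pool.Agent.Results.MP_28b5ac_nt.Full
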